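import Pool.Agent.Q54.EM.StmC

/-! Project EM (helper54), job CID: the covariance identity. -/

set_option autoImplicit false

namespace Pool.Agent.Q251.EM

open Finset Pool.Agent.Q54.EM

theorem cid : S_POS → S_EEL → S_SZB → S_CID := by
  intro hPOS hEEL hSZB ι _ p x k hk hL hm
  obtain ⟨n, rfl⟩ : ∃ n, k = n + 1 := ⟨k - 1, by omega⟩
  have hk1 : n + 1 - 1 = n := rfl
  rw [hk1]
  obtain ⟨l1, l2, l3, -, -, -⟩ := hEEL ι p x n
  obtain ⟨L1, L2, L3, -, -, -⟩ := hEEL ι p x (n + 1)
  set K : ℝ := ((n + 1 : ℕ) : ℝ) with hK
  have hW : 0 < PR p x (n + 1) K := (hPOS ι p x hL).1 (n + 1) (n + 1) le_rfl (by omega) hm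
  set m := mu p x with hmu
  have hm' : m = ∑ i, p i * x i := rfl
  -- the expectation of the positive part
  have key : ∀ i, EE p x n (fun s => max (K - (s + x i)) 0) =
      GP p x n K - x i * PR p x n K + AA (n + 1) p x (x i) := by
    intro i
    have e1 : (fun s : ℝ => max (K - (s + x i)) 0) = fun s =>
        (max (K - s) 0 - x i * (if s < K then 1 else 0)) +
          (if s < K then max (x i - (K - s)) 0 else 0) := by
      funext s
      have hx := hL.nn i
      by_cases hs : s < K
      · rw [if_pos hs, if_pos hs]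
        rw [max_eq_left (by linarith : (0 : ℝ) ≤ K - s)]
        rcases le_total (x i) (K - s) with h | h
        · rw [max_eq_left (by linarith), max_eq_right (by linarith)]
          ring
        · rw [max_eq_right (by linarith), max_eq_left (by linarith)]
          ring
      · rw [if_neg hs, if_neg hs]
        push Not at hs
        rw [max_eq_right (by linarith), max_eq_right (by linarith)]
        ring
    rw [e1, l1, l2, l3]
    rfl
  -- `GP`
  have hGP : GP p x (n + 1) K = GP p x n K - m * PR p x n K + ∑ i, p i * AA (n + 1) p x (x i) := by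
    have e1 : GP p x (n + 1) K = ∑ i, p i * EE p x n (fun s => max (K - (s + x i)) 0) := rfl
    rw [e1]
    simp only [key]
    rw [hm', Finset.sum_mul]
    have e2 : GP p x n K = ∑ i, p i * GP p x n K := by
      rw [← Finset.sum_mul, hL.sum, one_mul]
    conv_rhs => rw [e2]
    rw [← Finset.sum_sub_distrib, ← Finset.sum_add_distrib]
    exact Finset.sum_congr rfl fun i _ => by ring
  -- the size biased sum
  have hSB : ∑ i, p i * x i * EE p x n (fun s => max (K - (s + x i)) 0) =
      m * GP p x n K - (∑ i, p i * x i ^ 2) * PR p x n K + ∑ i, p i * x i * AA (n + 1) p x (x i) := by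
    simp only [key]
    rw [hm', Finset.sum_mul, Finset.sum_mul, ← Finset.sum_sub_distrib, ← Finset.sum_add_distrib]
    exact Finset.sum_congr rfl fun i _ => by ring
  have hG2 : G2 p x (n + 1) K = K * GP p x (n + 1) K -
      K * ∑ i, p i * x i * EE p x n (fun s => max (K - (s + x i)) 0) := by
    have e1 : (fun s : ℝ => (max (K - s) 0) ^ 2) = fun s => K * max (K - s) 0 - s * max (K - s) 0 := by
      funext s
      rcases le_total s K with h | h
      · rw [max_eq_left (by linarith)]
        ring
      · rw [max_eq_right (by linarith)]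
        ring
    have e2 := hSZB ι p x n (fun s => max (K - s) 0)
    unfold G2
    rw [e1, L2, L3, e2]
    have e3 : ((n : ℝ) + 1) = K := by rw [hK]; push_cast; ring
    rw [e3]
    rfl
  have hva : va p x = ∑ i, p i * x i ^ 2 - m ^ 2 := rfl
  -- the left side
  have hleft : PR p x (n + 1) K * (VV (n + 1) p x + hh (n + 1) p x * et (n + 1) p x) =
      G2 p x (n + 1) K - K * (1 - m) * GP p x (n + 1) K := by
    have e1 : hh (n + 1) p x = GP p x (n + 1) K / PR p x (n + 1) K := rfl
    have e2 : VV (n + 1) p x = G2 p x (n + 1) K / PR p x (n + 1) K - hh (n + 1) p x ^ 2 := rfl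
    have e3 : et (n + 1) p x = hh (n + 1) p x - K * (1 - m) := rfl
    rw [e3, e2, e1]
    field_simp
    ring
  rw [hleft, hG2, hSB, hva]
  rw [hGP]
  ring

end Pool.Agent.Q251.EM
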