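import Pool.Agent.Q54.EM.StmC

/-! Project EM (helper54), job COV: the covariance bound at a KKT point. -/

set_option autoImplicit false

namespace Pool.Agent.Q251.EM

open Finset Pool.Agent.Q54.EM

/-- the increments of `AA` -/
theorem AA_incr {ι : Type} [Fintype ι] {p x : ι → ℝ} (hL : Law p x) (hEEL : S_EEL) (k : ℕ)
    (y z : ℝ) (hy : 0 ≤ y) (hyz : y ≤ z) :
    (z - y) * (PR p x (k - 1) k - PR p x (k - 1) (k - y)) ≤ AA k p x z - AA k p x y := by
  obtain ⟨l1, l2, l3, l4, -, -⟩ := hEEL ι p x (k - 1)
  unfold PR AA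
  rw [← l2, ← l3, ← l2]
  apply l4 (fun i => (hL.pos i).le) hL.nn
  intro s hs
  by_cases h1 : s < (k : ℝ)
  · rw [if_pos h1, if_pos h1, if_pos h1]
    by_cases h2 : s < (k : ℝ) - y
    · rw [if_pos h2, sub_self, mul_zero]
      have : max (y - ((k : ℝ) - s)) 0 ≤ max (z - ((k : ℝ) - s)) 0 := max_le_max (by linarith) le_rfl
      linarith
    · rw [if_neg h2]
      push Not at h2
      rw [max_eq_left (by linarith), max_eq_left (by linarith)]
      linarith
  · rw [if_neg h1, if_neg h1, if_neg h1]
    have h2 : ¬ s < (k : ℝ) - y := fun h => h1 (by linarith)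
    rw [if_neg h2]
    simp

theorem cov : S_CID → S_POS → S_EEL → S_COV := by
  intro hCID hPOS hEEL ι _ p x k l hk hL hm hKK
  obtain ⟨hl, hKK⟩ := hKK
  have hW : 0 < PR p x k k := (hPOS ι p x hL).1 k k le_rfl hk hm
  have hw1 : 0 < PR p x (k - 1) k := (hPOS ι p x hL).1 (k - 1) k (Nat.sub_le _ _) hk hm
  have hcid := hCID ι p x k hk hL hm
  set w1 := PR p x (k - 1) k with hw1d
  set A : ι → ℝ := fun i => AA k p x (x i) with hA
  have hk0 : (0 : ℝ) < k := by exact_mod_cast hk
  -- one pair
  have pair : ∀ i j, (x i * (max (x j - x i) 0) ^ 2 + x j * (max (x i - x j) 0) ^ 2) * (w1 / l) ≤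
      (x i - x j) * (A i - A j) := by
    have half : ∀ i j, x i ≤ x j → x i * (x j - x i) ^ 2 * (w1 / l) ≤ (x i - x j) * (A i - A j) := by
      intro i j hij
      have h1 := AA_incr hL hEEL k (x i) (x j) (hL.nn i) hij
      rw [hKK i] at h1
      have h2 : w1 - w1 * (1 - x i / l) = x i * (w1 / l) := by
        field_simp
        ring
      rw [← hw1d, h2] at h1
      have h3 : 0 ≤ x j - x i := by linarith
      have h4 := mul_le_mul_of_nonneg_left h1 h3
      have e1 : (x j - x i) * ((x j - x i) * (x i * (w1 / l))) = x i * (x j - x i) ^ 2 * (w1 / l) := by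
        ring
      have e2 : (x j - x i) * (AA k p x (x j) - AA k p x (x i)) = (x i - x j) * (A i - A j) := by
        rw [hA]
        ring
      rw [e1, e2] at h4
      exact h4
    intro i j
    rcases le_total (x i) (x j) with h | h
    · have h1 := half i j h
      rw [max_eq_left (by linarith : (0 : ℝ) ≤ x j - x i), max_eq_right (by linarith : x i - x j ≤ 0)]
      have e1 : (x i * (x j - x i) ^ 2 + x j * (0 : ℝ) ^ 2) * (w1 / l) =
          x i * (x j - x i) ^ 2 * (w1 / l) := by ring
      rw [e1]
      exact h1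
    · have h1 := half j i h
      rw [max_eq_left (by linarith : (0 : ℝ) ≤ x i - x j), max_eq_right (by linarith : x j - x i ≤ 0)]
      have e1 : (x i * (0 : ℝ) ^ 2 + x j * (x i - x j) ^ 2) * (w1 / l) =
          x j * (x i - x j) ^ 2 * (w1 / l) := by ring
      have e2 : (x i - x j) * (A i - A j) = (x j - x i) * (A j - A i) := by ring
      rw [e1, e2]
      exact h1
  -- the double sums
  have hcov : 2 * (∑ i, p i * x i * A i - mu p x * ∑ i, p i * A i) =
      ∑ i, ∑ j, p i * p j * ((x i - x j) * (A i - A j)) := by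
    have e1 : ∀ i, ∑ j, p i * p j * ((x i - x j) * (A i - A j)) =
        p i * x i * A i - p i * x i * (∑ j, p j * A j) - p i * A i * (∑ j, p j * x j) +
          p i * ∑ j, p j * x j * A j := by
      intro i
      have e2 : p i * x i * A i = ∑ j, p j * (p i * x i * A i) := by
        rw [← Finset.sum_mul, hL.sum, one_mul]
      rw [e2, Finset.mul_sum, Finset.mul_sum, Finset.mul_sum, ← Finset.sum_sub_distrib,
        ← Finset.sum_sub_distrib, ← Finset.sum_add_distrib]
      exact Finset.sum_congr rfl fun j _ => by ring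
    rw [Finset.sum_congr rfl fun i _ => e1 i, Finset.sum_add_distrib, Finset.sum_sub_distrib,
      Finset.sum_sub_distrib, ← Finset.sum_mul, ← Finset.sum_mul, ← Finset.sum_mul, hL.sum]
    unfold mu
    ring
  have hvw : 2 * vw p x = ∑ i, ∑ j, p i * p j *
      (x i * (max (x j - x i) 0) ^ 2 + x j * (max (x i - x j) 0) ^ 2) := by
    have e1 : vw p x = ∑ i, ∑ j, p i * p j * (x j * (max (x i - x j) 0) ^ 2) := by
      unfold vw
      rw [Finset.sum_comm]
      exact Finset.sum_congr rfl fun i _ => Finset.sum_congr rfl fun j _ => by ring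
    have e2 : 2 * vw p x = vw p x + vw p x := by ring
    rw [e2]
    conv_lhs =>
      congr
      · unfold vw
      · rw [e1]
    rw [← Finset.sum_add_distrib]
    refine Finset.sum_congr rfl fun i _ => ?_
    rw [← Finset.sum_add_distrib]
    exact Finset.sum_congr rfl fun j _ => by ring
  have hmain : 2 * vw p x * (w1 / l) ≤ 2 * (∑ i, p i * x i * A i - mu p x * ∑ i, p i * A i) := by
    rw [hcov, hvw, Finset.sum_mul]
    refine Finset.sum_le_sum fun i _ => ?_
    rw [Finset.sum_mul]
    refine Finset.sum_le_sum fun j _ => ?_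
    rw [mul_assoc]
    exact mul_le_mul_of_nonneg_left (pair i j) (mul_nonneg (hL.pos i).le (hL.pos j).le)
  have hlam : lam k p x = PR p x k k / w1 := rfl
  have e1 : lam k p x * (VV k p x + hh k p x * et k p x) =
      k * va p x - k * (∑ i, p i * x i * A i - mu p x * ∑ i, p i * A i) / w1 := by
    have e2 : lam k p x * (VV k p x + hh k p x * et k p x) =
        (PR p x k k * (VV k p x + hh k p x * et k p x)) / w1 := by
      rw [hlam]
      ring
    rw [e2, hcid]
    field_simp
    rfl
  rw [e1]
  have h3 : k * vw p x / l ≤ k * (∑ i, p i * x i * A i - mu p x * ∑ i, p i * A i) / w1 := by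
    rw [div_le_div_iff₀ hl hw1]
    have h4 : vw p x * (w1 / l) ≤ ∑ i, p i * x i * A i - mu p x * ∑ i, p i * A i := by linarith
    have h5 := mul_le_mul_of_nonneg_left h4 (mul_nonneg hk0.le hl.le)
    have e3 : (k : ℝ) * l * (vw p x * (w1 / l)) = k * vw p x * w1 := by
      field_simp
    rw [e3] at h5
    linarith
  linarith

end Pool.Agent.Q251.EM
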