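import Pool.Agent.Q54.EM.StmC

/-! Project EM (helper54), job P0: inequality (P0). -/

set_option autoImplicit false

namespace Pool.Agent.Q251.EM

open Finset Pool.Agent.Q54.EM

theorem vw_nonneg {ι : Type} [Fintype ι] {p x : ι → ℝ} (hL : Law p x) : 0 ≤ vw p x :=
  Finset.sum_nonneg fun i _ => Finset.sum_nonneg fun j _ =>
    mul_nonneg (mul_nonneg (hL.pos i).le (hL.pos j).le) (mul_nonneg (hL.nn i) (sq_nonneg _))

/-- the algebra in the case `w ≤ t` -/
theorem alg_one (la l B t w m h : ℝ) (hla : 0 < la) (hl : 0 < l) (hB : la * l ≤ B) (hw : 0 ≤ w)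
    (hm : 0 < m) (hwm : w < m) (h1 : la * l * (t - w) ^ 2 ≤ (l - h - w) * (m - w) * B) :
    la * l * t ^ 2 ≤ m * (l - h) * B := by
  have hd : 0 < m - w := by linarith
  have hll : 0 < la * l := mul_pos hla hl
  have h2 : 0 ≤ (m - w) * (m * (l - h) * B - la * l * t ^ 2) := by
    have h3 : m * (la * l * (t - w) ^ 2) ≤ m * ((l - h - w) * (m - w) * B) :=
      mul_le_mul_of_nonneg_left h1 hm.le
    have h4 : m * w * (m - w) * (la * l) ≤ m * w * (m - w) * B :=
      mul_le_mul_of_nonneg_left hB (by positivity)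
    have h5 : 0 ≤ la * l * w * (m - t) ^ 2 := by positivity
    nlinarith [h3, h4, h5]
  have h6 := nonneg_of_mul_nonneg_right h2 hd
  linarith

/-- the algebra in the case `t < w` -/
theorem alg_two (la l B t w m h : ℝ) (hla : 0 < la) (hl : 0 < l) (hB : la * l ≤ B)
    (hm : 0 < m) (ht : 0 ≤ t) (htm : t ≤ m) (htw : t < w) (h1 : 0 ≤ l - h - w) :
    la * l * t ^ 2 ≤ m * (l - h) * B := by
  have hll : 0 < la * l := mul_pos hla hl
  have h2 : la * l * t ^ 2 ≤ B * t ^ 2 := mul_le_mul_of_nonneg_right hB (sq_nonneg t)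
  have h3 : t ^ 2 ≤ m * (l - h) := by nlinarith
  have h4 : B * t ^ 2 ≤ B * (m * (l - h)) := mul_le_mul_of_nonneg_left h3 (by linarith)
  linarith

theorem p0 : S_PW → S_COV → S_IDT → S_LH → S_LMB → S_POS → S_HL → S_P0 := by
  intro hPW hCOV hIDT hLH hLMB hPOS hHL ι _ p x k l hk hL hm0 hm1 hKK hv hB
  have hk1 : 1 ≤ k := by omega
  have hk0 : (0 : ℝ) < k := by exact_mod_cast hk1
  have hW : 0 < PR p x k k := (hPOS ι p x hL).1 k k le_rfl hk1 hm1
  have hw1 : 0 < PR p x (k - 1) k := (hPOS ι p x hL).1 (k - 1) k (Nat.sub_le _ _) hk1 hm1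
  have hlam : 0 < lam k p x := div_pos hW hw1
  have hl := hKK.1
  obtain ⟨a1, a2, a3, a4, a5⟩ := hHL ι p x k l hk1 hL hm0 hm1 hKK
  have hcov := hCOV ι p x k l hk1 hL hm1 hKK
  have hidt := hIDT ι p x k l hk1 hL hm1 hKK
  have hpw := hPW ι p x k l hk hL hm0 hm1 hKK hv
  have hvw := vw_nonneg hL
  have het : et k p x = k * (mu p x - (1 - hh k p x / k)) := by
    unfold et
    field_simp
    ring
  set m := mu p x with hmd
  set h := hh k p x with hhd
  set la := lam k p x with hlad
  set E := et k p x with hEd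
  set v := va p x with hvd
  set w := vw p x / v with hwd
  set t := 1 - h / k with htd
  have hw0 : 0 ≤ w := div_nonneg hvw hv.le
  have hvwe : vw p x = w * v := by
    rw [hwd]
    field_simp
  have hVV : VV k p x ≤ E * (l - h - w) := by
    have e1 : k * vw p x / l = E * la * w := by
      have e2 : (k : ℝ) * vw p x / l = (k * v) * w / l := by
        rw [hvwe]
        ring
      rw [e2, hidt]
      field_simp
    rw [e1, hidt] at hcov
    have e3 : la * VV k p x ≤ la * (E * (l - h - w)) := by linarith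
    exact le_of_mul_le_mul_left e3 hlam
  have htm : t < m := by
    by_contra hcon
    push Not at hcon
    have : E ≤ 0 := by
      rw [het]
      exact mul_nonpos_of_nonneg_of_nonpos hk0.le (by linarith)
    linarith
  have ht0 : 0 ≤ t := by
    rw [htd, sub_nonneg, div_le_one hk0]
    exact a3
  by_cases hwt : w ≤ t
  · have hc : vw p x ≤ t * v := by
      rw [hvwe]
      exact mul_le_mul_of_nonneg_right hwt hv.le
    have h1 := hpw hc
    apply alg_one la l (BB k p x) t w m h hlam hl hB hw0 hm0 (by linarith)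
    have h2 : 0 ≤ (m - w) * BB k p x := mul_nonneg (by linarith) (le_trans (by positivity) hB)
    have h3 : VV k p x * ((m - w) * BB k p x) ≤ E * (l - h - w) * ((m - w) * BB k p x) :=
      mul_le_mul_of_nonneg_right hVV h2
    have h4 : E * (la * l * (t - w) ^ 2) ≤ E * ((l - h - w) * (m - w) * BB k p x) := by
      have e1 : E * (la * l * (t - w) ^ 2) = k * v * (t - w) ^ 2 := by
        rw [hidt]
        ring
      rw [e1]
      linarith
    exact le_of_mul_le_mul_left h4 a5
  · push Not at hwt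
    apply alg_two la l (BB k p x) t w m h hlam hl hB hm0 ht0 htm.le hwt
    by_contra hcon
    push Not at hcon
    have : E * (l - h - w) < 0 := mul_neg_of_pos_of_neg a5 hcon
    linarith

end Pool.Agent.Q251.EM
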