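import Pool.Agent.Q86.EM.Stm4

/-!
# From the Poincare form of KLS to Q1
-/

set_option autoImplicit false

namespace Q251.EM.Pch

open MeasureTheory Set Filter Topology
open scoped ENNReal InnerProductSpace ContDiff
open Pool.Agent.W695.KH (EV VV)
open Pool.Agent.Q188.SB (un bdr)
open Pool.Agent.Q86.EM

theorem VV_smul {κ : Type} [Fintype κ] (D : Set (EuclideanSpace ℝ κ)) (c : ℝ)
    (f : EuclideanSpace ℝ κ → ℝ) : VV D (fun x => c * f x) = c ^ 2 * VV D f := by
  unfold VV EV
  simp only [mul_pow]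
  rw [integral_const_mul, integral_const_mul]
  ring

theorem cv {κ : Type} [Fintype κ] {D : Set (EuclideanSpace ℝ κ)} (hD : CB D) {τ : ℝ} (hτ : 0 < τ)
    (hpos : 0 < volume D)
    (H : ∀ (u : EuclideanSpace ℝ κ) (b : ℝ), u ≠ 0 →
      ENNReal.ofReal τ * min (un D {x | ⟪u, x⟫_ℝ ≤ b}) (1 - un D {x | ⟪u, x⟫_ℝ ≤ b}) ≤
        bdr (un D) {x | ⟪u, x⟫_ℝ ≤ b}) : CV D (8 / τ ^ 2) := by
  intro θ
  by_cases h0 : θ = 0
  · subst h0
    have e : (fun x : EuclideanSpace ℝ κ => ⟪(0 : EuclideanSpace ℝ κ), x⟫_ℝ) =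
        fun x => 0 * ⟪(0 : EuclideanSpace ℝ κ), x⟫_ℝ := by
      funext x; simp
    rw [e, VV_smul, norm_zero]
    simp
  · have hn0 : 0 < ‖θ‖ := norm_pos_iff.2 h0
    have h5 := Pool.Agent.Q73.KL.half_VV hD.cpt hpos hτ H (u := ‖θ‖⁻¹ • θ)
      (by rw [norm_smul, norm_inv, norm_norm, inv_mul_cancel₀ hn0.ne'])
    have e1 : (fun x : EuclideanSpace ℝ κ => ⟪θ, x⟫_ℝ) = fun x => ‖θ‖ * ⟪x, ‖θ‖⁻¹ • θ⟫_ℝ := by
      funext x
      rw [real_inner_smul_right, ← mul_assoc, mul_inv_cancel₀ hn0.ne', one_mul, real_inner_comm]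
    rw [e1, VV_smul, mul_comm (8 / τ ^ 2)]
    exact mul_le_mul_of_nonneg_left h5 (sq_nonneg _)

theorem pch : S_PCH := by
  refine ⟨42, by norm_num, ?_⟩
  intro κ _ D hD k hk hK t H A hA
  have hpos : 0 < volume D :=
    lt_of_lt_of_le (isOpen_interior.measure_pos volume hD.int) (measure_mono interior_subset)
  have hp := Pool.Agent.Q188.SB.un_prob D hD.cpt hpos
  set X := un D A with hX
  set Bd := bdr (un D) A with hBd
  have hX1 : X ≤ 1 := prob_le_one
  have hk0 : 0 < k := by linarith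
  have hsk : 0 < Real.sqrt k := Real.sqrt_pos.2 hk0
  have key : ∀ τ : ℝ, 0 < τ → ENNReal.ofReal τ ≤ t →
      ENNReal.ofReal τ * min X (1 - X) ≤ ENNReal.ofReal (42 * Real.sqrt k) * Bd := by
    intro τ hτ hτt
    have hcv : CV D (8 / τ ^ 2) := cv hD hτ hpos
      (fun u r hu => (mul_le_mul' hτt le_rfl).trans (H u r hu))
    have hPI := hK _ hcv
    have h1 : X * (1 - X) ≤ ENNReal.ofReal (7 * Real.sqrt (k * (8 / τ ^ 2))) * Bd :=
      Q237.OP.Che.che κ D hD.cpt hD.cvx hpos (k * (8 / τ ^ 2)) (by positivity)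
        (fun f hf _ => hPI f hf) (un D) rfl A hA
    have e1 : 7 * Real.sqrt (k * (8 / τ ^ 2)) ≤ 21 * Real.sqrt k / τ := by
      rw [Real.sqrt_mul hk0.le, Real.sqrt_div (by norm_num), Real.sqrt_sq hτ.le, mul_div_assoc',
        mul_div_assoc']
      apply div_le_div_of_nonneg_right _ hτ.le
      have e2 : Real.sqrt 8 ≤ 3 := by
        rw [Real.sqrt_le_left (by norm_num)]
        norm_num
      nlinarith
    calc ENNReal.ofReal τ * min X (1 - X)
        ≤ ENNReal.ofReal τ * (2 * (X * (1 - X))) :=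
          mul_le_mul_right (Q289.OP.min_le_two_mul hX1) _
      _ ≤ ENNReal.ofReal τ * (2 * (ENNReal.ofReal (21 * Real.sqrt k / τ) * Bd)) := by
          refine mul_le_mul_right (mul_le_mul_right (h1.trans ?_) _) _
          exact mul_le_mul_left (ENNReal.ofReal_le_ofReal e1) _
      _ = (ENNReal.ofReal τ * (2 * ENNReal.ofReal (21 * Real.sqrt k / τ))) * Bd := by
          ring
      _ = ENNReal.ofReal (42 * Real.sqrt k) * Bd := by
          rw [show (2 : ℝ≥0∞) = ENNReal.ofReal 2 by norm_num, ← ENNReal.ofReal_mul (by norm_num),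
            ← ENNReal.ofReal_mul hτ.le]
          have : τ * (2 * (21 * Real.sqrt k / τ)) = 42 * Real.sqrt k := by field_simp; norm_num
          rw [this]
  have hC0 : 0 < 42 * Real.sqrt k := by positivity
  by_cases htt : t = ⊤
  · subst htt
    by_cases hm : min X (1 - X) = 0
    · rw [hm, mul_zero]
      exact bot_le
    have hmt : min X (1 - X) ≠ ⊤ :=
      ne_top_of_le_ne_top ENNReal.one_ne_top ((min_le_left _ _).trans hX1)
    have hm0 : 0 < (min X (1 - X)).toReal := ENNReal.toReal_pos hm hmt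
    have h2 : ENNReal.ofReal (42 * Real.sqrt k) * Bd = ⊤ := by
      refine ENNReal.eq_top_of_forall_nnreal_le fun r => ?_
      have h3 := key ((r + 1) / (min X (1 - X)).toReal) (by positivity) le_top
      rw [← ENNReal.ofReal_toReal hmt, ← ENNReal.ofReal_mul (by positivity),
        ENNReal.toReal_ofReal hm0.le] at h3
      refine le_trans ?_ h3
      rw [← ENNReal.ofReal_coe_nnreal]
      refine ENNReal.ofReal_le_ofReal ?_
      have : ((r : ℝ) + 1) / (min X (1 - X)).toReal * (min X (1 - X)).toReal = r + 1 := by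
        field_simp
      rw [this]
      linarith
    rw [h2]
    exact le_top
  · by_cases h0 : t = 0
    · rw [h0, zero_mul]
      exact bot_le
    · have h4 := key t.toReal (ENNReal.toReal_pos h0 htt) (ENNReal.ofReal_toReal htt).le
      rwa [ENNReal.ofReal_toReal htt] at h4

end Q251.EM.Pch
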