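import Pool.Agent.Q86.EM.Stm2

/-!
# Project EM/FS (helper86), job SLC (helper251): convergence of the fibres to the sections
-/

set_option autoImplicit false

namespace Pool.Agent.Q251.EM

open MeasureTheory Set Filter Topology
open scoped ENNReal InnerProductSpace ContDiff
open Pool.Agent.Q86.EM
open Pool.Agent.Q86.FIB (Sp EK spl Std oo lp)

variable {n : ℕ}

theorem pt_cont : Continuous fun p : ℝ × Eu (Fin n) => pt n p.1 p.2 := by
  unfold pt
  refine (spl 1 n).symm.continuous.comp (Continuous.prodMk ?_ ((lp n).continuous.comp continuous_snd))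
  exact continuous_pi fun _ => continuous_fst

theorem pt_cont_left (z : Eu (Fin n)) : Continuous fun t : ℝ => pt n t z :=
  pt_cont.comp (Continuous.prodMk continuous_id continuous_const)

theorem pt_cont_right (t : ℝ) : Continuous fun z : Eu (Fin n) => pt n t z :=
  pt_cont.comp (Continuous.prodMk continuous_const continuous_id)

theorem pt_inl (t : ℝ) (z : Eu (Fin n)) (i : Fin 1) : pt n t z (Sum.inl i) = t := by
  have h : spl 1 n (pt n t z) = (oo t, lp n z) := (spl 1 n).apply_symm_apply _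
  have h2 := congrFun (congrArg Prod.fst h) i
  exact h2

theorem pt_inr (t : ℝ) (z : Eu (Fin n)) (i : Fin n) : pt n t z (Sum.inr i) = z i := by
  have h : spl 1 n (pt n t z) = (oo t, lp n z) := (spl 1 n).apply_symm_apply _
  have h2 := congrFun (congrArg Prod.snd h) i
  exact h2

theorem pt_norm (t : ℝ) (z : Eu (Fin n)) : ‖pt n t z‖ ^ 2 = t ^ 2 + ‖z‖ ^ 2 := by
  rw [EuclideanSpace.norm_sq_eq, EuclideanSpace.norm_sq_eq, Fintype.sum_sum_type]
  simp only [pt_inl, pt_inr, Real.norm_eq_abs, sq_abs]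
  simp

theorem le_pt (t : ℝ) (z : Eu (Fin n)) : ‖z‖ ≤ ‖pt n t z‖ := by
  have h := pt_norm t z
  refine le_of_sq_le_sq ?_ (norm_nonneg _)
  rw [h]
  nlinarith [sq_nonneg t]

theorem four_le (r : ℝ) (hr : 0 ≤ r) : (1 + r) ^ 4 ≤ 1024 * Real.exp (r ^ 2 / 8) := by
  have h1 := Real.quadratic_le_exp_of_nonneg (x := r ^ 2 / 8) (by positivity)
  have h2 : (1 + r) ^ 4 ≤ 8 * (1 + r ^ 4) := by nlinarith [sq_nonneg (r - 1), sq_nonneg (r ^ 2 - 1), mul_nonneg hr (sq_nonneg (r - 1)), mul_nonneg (sq_nonneg r) (sq_nonneg (r - 1)), sq_nonneg (r^2 - r)]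
  have h3 : 0 ≤ r ^ 2 := sq_nonneg r
  nlinarith

theorem gauss_int (κ : Type) [Fintype κ] : Integrable fun z : Eu κ => Real.exp (-(‖z‖ ^ 2 / 8)) := by
  have h := (GaussianFourier.integrable_cexp_neg_mul_sq_norm_add (V := Eu κ) (b := (1 / 8 : ℂ)) (by norm_num) 0 0).norm
  refine h.congr (Eventually.of_forall fun z => ?_)
  simp only [Complex.norm_exp]
  congr 1
  simp only [zero_mul, add_zero]
  have : (-(1 / 8 : ℂ) * (‖z‖ : ℂ) ^ 2) = ((-(‖z‖ ^ 2 / 8) : ℝ) : ℂ) := by push_cast; ring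
  rw [this, Complex.ofReal_re]

theorem bnd_int (κ : Type) [Fintype κ] (C : ℝ) :
    Integrable fun z : Eu κ => (1 + ‖z‖) ^ 4 * (C * Real.exp (-(‖z‖ ^ 2 / 4))) := by
  refine ((gauss_int κ).const_mul (|C| * 1024)).mono' (by fun_prop) (Eventually.of_forall fun z => ?_)
  rw [Real.norm_eq_abs, abs_mul, abs_mul, abs_of_nonneg (by positivity : (0 : ℝ) ≤ (1 + ‖z‖) ^ 4), Real.abs_exp]
  have h1 := four_le ‖z‖ (norm_nonneg z)
  have h2 : Real.exp (‖z‖ ^ 2 / 8) * Real.exp (-(‖z‖ ^ 2 / 4)) = Real.exp (-(‖z‖ ^ 2 / 8)) := by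
    rw [← Real.exp_add]
    congr 1
    ring
  calc (1 + ‖z‖) ^ 4 * (|C| * Real.exp (-(‖z‖ ^ 2 / 4))) ≤
        (1024 * Real.exp (‖z‖ ^ 2 / 8)) * (|C| * Real.exp (-(‖z‖ ^ 2 / 4))) :=
        mul_le_mul_of_nonneg_right h1 (by positivity)
    _ = |C| * 1024 * (Real.exp (‖z‖ ^ 2 / 8) * Real.exp (-(‖z‖ ^ 2 / 4))) := by ring
    _ = _ := by rw [h2]

theorem inf_low {κ : Type} [Fintype κ] {D : Set (Eu κ)} (hne : D.Nonempty) {R : ℝ} (hR : ∀ y ∈ D, ‖y‖ ≤ R) (x : Eu κ) :
    ‖x‖ ^ 2 / 2 - R ^ 2 ≤ Metric.infDist x D ^ 2 := by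
  have h0 : 0 ≤ Metric.infDist x D := Metric.infDist_nonneg
  have h1 : ‖x‖ - R ≤ Metric.infDist x D := by
    rw [Metric.le_infDist hne]
    intro y hy
    have h2 := norm_sub_norm_le x y
    rw [dist_eq_norm]
    linarith [hR y hy]
  obtain ⟨y, hy⟩ := hne
  have hR0 : 0 ≤ R := (norm_nonneg y).trans (hR y hy)
  rcases le_total ‖x‖ R with h | h
  · nlinarith [norm_nonneg x, sq_nonneg (Metric.infDist x D)]
  · have h3 : (‖x‖ - R) ^ 2 ≤ Metric.infDist x D ^ 2 := pow_le_pow_left₀ (by linarith) h1 2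
    nlinarith [sq_nonneg (‖x‖ - 2 * R)]

theorem exp_le {D : Set (EK 1 n)} (hne : D.Nonempty) {R : ℝ} (hR : ∀ y ∈ D, ‖y‖ ≤ R) {A : ℝ} (hA : 1 ≤ A)
    {U : EK 1 n → ℝ} (hU : Ap D A U) (t : ℝ) (z : Eu (Fin n)) :
    Real.exp (-U (pt n t z)) ≤ Real.exp (R ^ 2 / 2) * Real.exp (-(‖z‖ ^ 2 / 4)) := by
  rw [← Real.exp_add]
  apply Real.exp_le_exp.2
  have h1 := hU.lo (pt n t z)
  have h2 := inf_low hne hR (pt n t z)
  have h3 := pt_norm t z
  have h4 : 0 ≤ Metric.infDist (pt n t z) D ^ 2 := sq_nonneg _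
  nlinarith [sq_nonneg t]

theorem ind_le {D : Set (EK 1 n)} (hne : D.Nonempty) {R : ℝ} (hR : ∀ y ∈ D, ‖y‖ ≤ R) (t : ℝ) (z : Eu (Fin n)) :
    (sl D t).indicator (fun _ => (1 : ℝ)) z ≤ Real.exp (R ^ 2 / 2) * Real.exp (-(‖z‖ ^ 2 / 4)) := by
  by_cases h : z ∈ sl D t
  · rw [indicator_of_mem h, ← Real.exp_add]
    apply Real.one_le_exp
    have h1 := hR _ h
    have h2 := le_pt t z
    have h3 : ‖z‖ ^ 2 ≤ R ^ 2 := pow_le_pow_left₀ (norm_nonneg _) (h2.trans h1) 2
    nlinarith [sq_nonneg R]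
  · rw [indicator_of_notMem h]
    positivity

theorem ind_nonneg (D : Set (EK 1 n)) (t : ℝ) (z : Eu (Fin n)) :
    0 ≤ (sl D t).indicator (fun _ => (1 : ℝ)) z := indicator_nonneg (fun _ _ => zero_le_one) z

theorem F_le {D : Set (EK 1 n)} (hne : D.Nonempty) {R : ℝ} (hR : ∀ y ∈ D, ‖y‖ ≤ R) {A : ℝ} (hA : 1 ≤ A)
    {U : EK 1 n → ℝ} (hU : Ap D A U) (t : ℝ) (z : Eu (Fin n)) :
    ‖(1 + ‖z‖) ^ 4 * |Real.exp (-U (pt n t z)) - (sl D t).indicator (fun _ => 1) z|‖ ≤
      (1 + ‖z‖) ^ 4 * (Real.exp (R ^ 2 / 2) * Real.exp (-(‖z‖ ^ 2 / 4))) := by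
  rw [Real.norm_eq_abs, abs_mul, abs_abs, abs_of_nonneg (by positivity : (0 : ℝ) ≤ (1 + ‖z‖) ^ 4)]
  refine mul_le_mul_of_nonneg_left ?_ (by positivity)
  have h1 := exp_le hne hR hA hU t z
  have h2 := ind_le hne hR t z
  have h3 := ind_nonneg D t z
  have h4 := Real.exp_pos (-U (pt n t z))
  rw [abs_le]
  constructor <;> linarith

theorem sl_closed {D : Set (EK 1 n)} (hD : IsClosed D) (t : ℝ) : IsClosed (sl D t) := hD.preimage (pt_cont_right t)

theorem U_cont {κ : Type} [Fintype κ] {D : Set (Eu κ)} {A : ℝ} {U : Eu κ → ℝ} (hU : Ap D A U) : Continuous U :=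
  hU.htg.1.continuous

theorem F_meas {D : Set (EK 1 n)} (hD : IsClosed D) {A : ℝ} {U : EK 1 n → ℝ} (hU : Ap D A U) (t : ℝ) :
    Measurable fun z : Eu (Fin n) => (1 + ‖z‖) ^ 4 *
      |Real.exp (-U (pt n t z)) - (sl D t).indicator (fun _ => (1 : ℝ)) z| := by
  have h1 : Measurable fun z : Eu (Fin n) => Real.exp (-U (pt n t z)) :=
    (Real.continuous_exp.comp ((U_cont hU).comp (pt_cont_right t)).neg).measurable
  have h2 : Measurable fun z : Eu (Fin n) => (sl D t).indicator (fun _ => (1 : ℝ)) z :=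
    measurable_const.indicator (sl_closed hD t).measurableSet
  have h3 : Measurable fun z : Eu (Fin n) => (1 + ‖z‖) ^ 4 := by fun_prop
  exact h3.mul (by simpa [Real.norm_eq_abs] using (h1.sub h2).norm)

theorem slc (hG : S_SLG) : S_SLC := by
  intro n D hD a b hab ha hb ε hε
  have hne : D.Nonempty := hD.int.mono interior_subset
  obtain ⟨R, hR'⟩ := hD.cpt.isBounded.exists_norm_le
  have hR : ∀ y ∈ D, ‖y‖ ≤ R := hR'
  obtain ⟨hsec, -⟩ := hG n D hD a b hab ha hb
  have hint : ∀ A : ℝ, 1 ≤ A → ∀ U : EK 1 n → ℝ, Ap D A U → ∀ t : ℝ,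
      Integrable fun z : Eu (Fin n) => (1 + ‖z‖) ^ 4 * Real.exp (-U (pt n t z)) := by
    intro A hA U hU t
    refine (bnd_int (Fin n) (Real.exp (R ^ 2 / 2))).mono' ?_ (Eventually.of_forall fun z => ?_)
    · have h1 : Continuous fun z : Eu (Fin n) => Real.exp (-U (pt n t z)) :=
        Real.continuous_exp.comp ((U_cont hU).comp (pt_cont_right t)).neg
      exact ((by fun_prop : Continuous fun z : Eu (Fin n) => (1 + ‖z‖) ^ 4).mul h1).aestronglyMeasurable
    · rw [Real.norm_eq_abs, abs_of_nonneg (by positivity)]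
      exact mul_le_mul_of_nonneg_left (exp_le hne hR hA hU t z) (by positivity)
  by_contra hcon
  have hseq : ∀ j : ℕ, ∃ (A : ℝ) (U : EK 1 n → ℝ) (t : ℝ), (j : ℝ) + 1 ≤ A ∧ Ap D A U ∧ t ∈ Icc a b ∧
      ε < ∫ z : Eu (Fin n), (1 + ‖z‖) ^ 4 * |Real.exp (-U (pt n t z)) - (sl D t).indicator (fun _ => 1) z| := by
    intro j
    by_contra h
    apply hcon
    refine ⟨(j : ℝ) + 1, by positivity, fun A hA U hU t ht => ⟨hint A ?_ U hU t, ?_⟩⟩
    · have : (0 : ℝ) ≤ j := Nat.cast_nonneg j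
      linarith
    · by_contra h2
      exact h ⟨A, U, t, hA, hU, ht, not_le.1 h2⟩
  choose A U t hA hU ht hbig using hseq
  obtain ⟨t₀, ht₀, φ, hφ, hlim⟩ := isCompact_Icc.tendsto_subseq ht
  have hA1 : ∀ j, 1 ≤ A j := fun j => by
    have : (0 : ℝ) ≤ j := Nat.cast_nonneg j
    linarith [hA j]
  have hAt : Tendsto (fun j => A (φ j)) atTop atTop := by
    refine tendsto_atTop_mono (fun j => ?_) (tendsto_natCast_atTop_atTop (R := ℝ))
    have h1 : ((φ j : ℕ) : ℝ) + 1 ≤ A (φ j) := hA (φ j)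
    have h2 : (j : ℝ) ≤ (φ j : ℝ) := by exact_mod_cast hφ.id_le j
    linarith
  have hDc : IsClosed D := hD.cpt.isClosed
  obtain ⟨hCB, hInt⟩ := hsec t₀ ht₀
  have hfr : ∀ᵐ z : Eu (Fin n), z ∉ frontier (sl D t₀) := by
    have h0 : volume (frontier (sl D t₀)) = 0 := hCB.cvx.addHaar_frontier volume
    exact measure_eq_zero_iff_ae_notMem.1 h0
  have hlim0 : Tendsto (fun j => ∫ z : Eu (Fin n), (1 + ‖z‖) ^ 4 *
      |Real.exp (-U (φ j) (pt n (t (φ j)) z)) - (sl D (t (φ j))).indicator (fun _ => 1) z|) atTop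
      (𝓝 (∫ z : Eu (Fin n), (0 : ℝ))) := by
    refine tendsto_integral_of_dominated_convergence
      (fun z : Eu (Fin n) => (1 + ‖z‖) ^ 4 * (Real.exp (R ^ 2 / 2) * Real.exp (-(‖z‖ ^ 2 / 4))))
      (fun j => (F_meas hDc (hU (φ j)) _).aestronglyMeasurable) (bnd_int (Fin n) _)
      (fun j => Eventually.of_forall fun z => F_le hne hR (hA1 (φ j)) (hU (φ j)) _ z) ?_
    filter_upwards [hfr] with z hz
    have hpt : Tendsto (fun j => pt n (t (φ j)) z) atTop (𝓝 (pt n t₀ z)) :=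
      ((pt_cont_left z).tendsto t₀).comp hlim
    suffices h : Tendsto (fun j => Real.exp (-U (φ j) (pt n (t (φ j)) z)) -
        (sl D (t (φ j))).indicator (fun _ => (1 : ℝ)) z) atTop (𝓝 0) by
      have h2 := (h.abs).const_mul ((1 + ‖z‖) ^ 4)
      rw [abs_zero, mul_zero] at h2
      exact h2
    by_cases hzin : z ∈ interior (sl D t₀)
    · have h1 : ∀ᶠ j in atTop, pt n (t (φ j)) z ∈ D := by
        filter_upwards [hpt.eventually (isOpen_interior.mem_nhds (hInt z hzin))] with j hj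
        exact interior_subset hj
      have h2 : Tendsto (fun j => U (φ j) (pt n (t (φ j)) z)) atTop (𝓝 0) := by
        have h3 : Tendsto (fun j => 1 / A (φ j)) atTop (𝓝 0) := by
          simpa [Function.comp_def] using (tendsto_inv_atTop_zero.comp hAt)
        refine tendsto_of_tendsto_of_tendsto_of_le_of_le' tendsto_const_nhds h3 ?_ ?_
        · filter_upwards with j
          refine le_trans ?_ ((hU (φ j)).lo _)
          have := hA1 (φ j)
          positivity
        · filter_upwards [h1] with j hj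
          have h4 := (hU (φ j)).hi (pt n (t (φ j)) z)
          rw [Metric.infDist_zero_of_mem hj] at h4
          simpa using h4
      have h5 : Tendsto (fun j => Real.exp (-U (φ j) (pt n (t (φ j)) z))) atTop (𝓝 1) := by
        have h6 := (Real.continuous_exp.tendsto _).comp h2.neg
        simpa [Function.comp_def] using h6
      have h7 : Tendsto (fun j => (sl D (t (φ j))).indicator (fun _ => (1 : ℝ)) z) atTop (𝓝 1) := by
        refine tendsto_const_nhds.congr' ?_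
        filter_upwards [h1] with j hj
        rw [indicator_of_mem (show z ∈ sl D (t (φ j)) from hj)]
      simpa using h5.sub h7
    · have hzc : z ∉ sl D t₀ := by
        intro h
        apply hz
        rw [frontier, Set.mem_sdiff]
        exact ⟨subset_closure h, hzin⟩
      have hpos : 0 < Metric.infDist (pt n t₀ z) D := (hDc.notMem_iff_infDist_pos hne).1 hzc
      set δ := Metric.infDist (pt n t₀ z) D / 2 with hδ
      have hδ0 : 0 < δ := by positivity
      have h1 : ∀ᶠ j in atTop, δ < Metric.infDist (pt n (t (φ j)) z) D := by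
        have h2 : Tendsto (fun j => Metric.infDist (pt n (t (φ j)) z) D) atTop
            (𝓝 (Metric.infDist (pt n t₀ z) D)) := ((Metric.continuous_infDist_pt D).tendsto _).comp hpt
        exact h2.eventually (lt_mem_nhds (by rw [hδ]; linarith))
      have h2 : Tendsto (fun j => U (φ j) (pt n (t (φ j)) z)) atTop atTop := by
        have h3 : Tendsto (fun j => A (φ j) * (δ ^ 2 / 2)) atTop atTop :=
          hAt.atTop_mul_const (by positivity)
        refine tendsto_atTop_mono' _ ?_ h3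
        filter_upwards [h1] with j hj
        refine le_trans ?_ ((hU (φ j)).lo _)
        have h4 : δ ^ 2 ≤ Metric.infDist (pt n (t (φ j)) z) D ^ 2 := pow_le_pow_left₀ hδ0.le hj.le 2
        have h5 := hA1 (φ j)
        nlinarith
      have h5 : Tendsto (fun j => Real.exp (-U (φ j) (pt n (t (φ j)) z))) atTop (𝓝 0) :=
        Real.tendsto_exp_neg_atTop_nhds_zero.comp h2
      have h7 : Tendsto (fun j => (sl D (t (φ j))).indicator (fun _ => (1 : ℝ)) z) atTop (𝓝 0) := by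
        refine tendsto_const_nhds.congr' ?_
        filter_upwards [h1] with j hj
        rw [indicator_of_notMem]
        intro h
        rw [Metric.infDist_zero_of_mem (show pt n (t (φ j)) z ∈ D from h)] at hj
        linarith
      simpa using h5.sub h7
  rw [integral_zero] at hlim0
  have h9 : ∀ᶠ j in atTop, (∫ z : Eu (Fin n), (1 + ‖z‖) ^ 4 *
      |Real.exp (-U (φ j) (pt n (t (φ j)) z)) - (sl D (t (φ j))).indicator (fun _ => 1) z|) < ε :=
    hlim0.eventually (gt_mem_nhds hε)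
  obtain ⟨j, hj⟩ := h9.exists
  exact absurd (hbig (φ j)) (not_lt.2 hj.le)

end Pool.Agent.Q251.EM
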