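import Pool.Agent.Q86.EM.Stm5
import Pool.Agent.Q86.EM.Onm

/-!
# Project FD (helper86), job DLM (helper251): limits of integrals against the regularisations
-/

set_option autoImplicit false

namespace Pool.Agent.Q251.EM.Dlm

open MeasureTheory Set Filter Topology
open scoped ENNReal InnerProductSpace ContDiff
open Pool.Agent.Q86.EM
open Pool.Agent.Q86.FIB (PB)
open Pool.Agent.H888R2.KT (LC pst gs zz gc)

variable {κ : Type} [Fintype κ]

/-- the regularisation as a Gaussian average -/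
theorem sh_eq {ρ : Eu κ → ℝ} (hρ : LC ρ) {h : ℝ} (hh : 0 < h) (y : Eu κ) :
    sh h ρ y = (∫ w : Eu κ, Real.exp (-(‖w‖ ^ 2 / 2)) * ρ (y + Real.sqrt h • w)) /
      ∫ w : Eu κ, Real.exp (-(‖w‖ ^ 2 / 2)) := by
  have hs : 0 < Real.sqrt h := Real.sqrt_pos.2 hh
  have e0 : ∀ w : Eu κ, ‖Real.sqrt h • w‖ ^ 2 / (2 * h) = ‖w‖ ^ 2 / 2 := by
    intro w
    rw [norm_smul, Real.norm_of_nonneg hs.le, mul_pow, Real.sq_sqrt hh.le]
    field_simp
  have e1 : zz h ρ y = ∫ u, Real.exp (-(‖u‖ ^ 2 / (2 * h))) * ρ (y + u) := by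
    unfold zz
    rw [Pool.Agent.H888R2.KT.N2x.int_mu hρ.nonneg hρ.meas, ← integral_add_left_eq_self _ y]
    refine integral_congr_ae (Eventually.of_forall fun u => ?_)
    simp only [add_sub_cancel_left]
  have e2 := Measure.integral_comp_smul (volume : Measure (Eu κ))
    (fun u => Real.exp (-(‖u‖ ^ 2 / (2 * h))) * ρ (y + u)) (Real.sqrt h)
  have e3 := Measure.integral_comp_smul (volume : Measure (Eu κ))
    (fun u => Real.exp (-(‖u‖ ^ 2 / (2 * h)))) (Real.sqrt h)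
  simp only [e0] at e2 e3
  rw [← e1, smul_eq_mul] at e2
  rw [smul_eq_mul] at e3
  have hc0 : 0 < |(Real.sqrt h ^ Module.finrank ℝ (Eu κ))⁻¹| := by positivity
  rw [e2, e3]
  unfold sh gc
  rw [mul_div_mul_left _ _ hc0.ne']

theorem gauss_half : Integrable fun w : Eu κ => Real.exp (-(‖w‖ ^ 2 / 2)) := by
  refine (Pool.Agent.H888R2.KT.N0x.gauss_int (κ := κ) (1 / 2) (by norm_num)).congr
    (Eventually.of_forall fun w => ?_)
  simp only
  congr 1
  ring

/-- Gaussian approximate identity at a point of continuity -/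
theorem appr {ρ : Eu κ → ℝ} (hρ : LC ρ) {B : ℝ} (hB : ∀ x, ρ x ≤ B) {h : ℕ → ℝ}
    (hh : Tendsto h atTop (𝓝 0)) (hp : ∀ j, 0 < h j) {y : ℕ → Eu κ} {y₀ : Eu κ}
    (hy : Tendsto y atTop (𝓝 y₀)) (hc : ContinuousAt ρ y₀) :
    Tendsto (fun j => sh (h j) ρ (y j)) atTop (𝓝 (ρ y₀)) := by
  have hG := gauss_half (κ := κ)
  have hG0 : 0 < ∫ w : Eu κ, Real.exp (-(‖w‖ ^ 2 / 2)) := integral_exp_pos hG
  have h1 : Tendsto (fun j => ∫ w : Eu κ, Real.exp (-(‖w‖ ^ 2 / 2)) *
      ρ (y j + Real.sqrt (h j) • w)) atTop (𝓝 (∫ w : Eu κ, Real.exp (-(‖w‖ ^ 2 / 2)) * ρ y₀)) := by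
    refine tendsto_integral_of_dominated_convergence
      (fun w => Real.exp (-(‖w‖ ^ 2 / 2)) * B) ?_ (hG.mul_const B) ?_ ?_
    · intro j
      refine Measurable.aestronglyMeasurable ?_
      refine Measurable.mul (by fun_prop) ?_
      exact hρ.meas.comp (by fun_prop)
    · intro j
      refine Eventually.of_forall fun w => ?_
      rw [Real.norm_eq_abs, abs_mul, Real.abs_exp, abs_of_nonneg (hρ.nonneg _)]
      exact mul_le_mul_of_nonneg_left (hB _) (Real.exp_pos _).le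
    · refine Eventually.of_forall fun w => ?_
      refine Tendsto.const_mul _ ?_
      refine hc.tendsto.comp ?_
      have h2 : Tendsto (fun j => Real.sqrt (h j)) atTop (𝓝 0) := by
        have := (Real.continuous_sqrt.tendsto 0).comp hh
        rwa [Real.sqrt_zero] at this
      have h3 := hy.add (h2.smul_const w)
      rwa [zero_smul, add_zero] at h3
  have h4 : ∀ j, sh (h j) ρ (y j) = (∫ w : Eu κ, Real.exp (-(‖w‖ ^ 2 / 2)) *
      ρ (y j + Real.sqrt (h j) • w)) / ∫ w : Eu κ, Real.exp (-(‖w‖ ^ 2 / 2)) :=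
    fun j => sh_eq hρ (hp j) _
  simp_rw [h4]
  have h5 := h1.div_const (∫ w : Eu κ, Real.exp (-(‖w‖ ^ 2 / 2)))
  rwa [integral_mul_const, mul_div_cancel_left₀ _ hG0.ne'] at h5

theorem pow_exp (m : ℕ) (b : ℝ) (hb : 0 < b) : ∃ C : ℝ, 0 < C ∧ ∀ t : ℝ, 0 ≤ t →
    (1 + t) ^ m * Real.exp (-(2 * b) * t ^ 2) ≤ C * Real.exp (-b * t ^ 2) := by
  refine ⟨m.factorial * Real.exp (1 + 1 / (4 * b)), by positivity, fun t ht => ?_⟩
  have h1 : (1 + t) ^ m ≤ m.factorial * Real.exp (1 + t) := by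
    have := Real.pow_div_factorial_le_exp (1 + t) (by linarith) m
    rwa [div_le_iff₀ (by positivity), mul_comm] at this
  have h2 : Real.exp (1 + t) ≤ Real.exp (1 + 1 / (4 * b)) * Real.exp (b * t ^ 2) := by
    rw [← Real.exp_add, Real.exp_le_exp]
    have h3 : b * t ^ 2 + 1 / (4 * b) - t = b * (t - 1 / (2 * b)) ^ 2 := by
      field_simp
      ring
    have h4 : 0 ≤ b * (t - 1 / (2 * b)) ^ 2 := by positivity
    linarith
  have h5 : Real.exp (b * t ^ 2) * Real.exp (-(2 * b) * t ^ 2) = Real.exp (-b * t ^ 2) := by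
    rw [← Real.exp_add]
    congr 1
    ring
  calc (1 + t) ^ m * Real.exp (-(2 * b) * t ^ 2)
      ≤ m.factorial * (Real.exp (1 + 1 / (4 * b)) * Real.exp (b * t ^ 2)) *
          Real.exp (-(2 * b) * t ^ 2) :=
        mul_le_mul_of_nonneg_right (h1.trans (mul_le_mul_of_nonneg_left h2 (by positivity)))
          (Real.exp_pos _).le
    _ = m.factorial * Real.exp (1 + 1 / (4 * b)) *
          (Real.exp (b * t ^ 2) * Real.exp (-(2 * b) * t ^ 2)) := by ring
    _ = m.factorial * Real.exp (1 + 1 / (4 * b)) * Real.exp (-b * t ^ 2) := by rw [h5]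

theorem poly_gauss (m : ℕ) :
    Integrable fun x : Eu κ => (1 + ‖x‖) ^ m * Real.exp (-(‖x‖ ^ 2 / 16)) := by
  obtain ⟨C, hC0, hC⟩ := pow_exp m (1 / 32) (by norm_num)
  refine ((Pool.Agent.H888R2.KT.N0x.gauss_int (κ := κ) (1 / 32) (by norm_num)).const_mul C).mono'
    (by fun_prop) (Eventually.of_forall fun x => ?_)
  rw [Real.norm_of_nonneg (by positivity)]
  have h1 := hC ‖x‖ (norm_nonneg x)
  have e : -(2 * (1 / 32)) * ‖x‖ ^ 2 = -(‖x‖ ^ 2 / 16) := by ring
  rwa [e] at h1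

theorem dlm (h1 : S_DPT) (h2 : S_DBD) : S_DLM := by
  intro κ _ ρ hρ h hh hp g B m hg hgB
  obtain ⟨⟨B₀, hB₀⟩, hae, C, hC0, hC⟩ := h2 κ ρ hρ
  have hexp : ∀ j x, Real.exp (-Uh (h j) ρ x) = sh (h j) ρ x := fun j => (h1 κ ρ hρ _ (hp j)).2.1
  have hpot : ∀ j, Pot (Uh (h j) ρ) := fun j => (h1 κ ρ hρ _ (hp j)).2.2.1
  have hpos : ∀ j x, 0 < sh (h j) ρ x := fun j => (h1 κ ρ hρ _ (hp j)).1
  have hgB' : ∀ x, |g x| ≤ |B| * (1 + ‖x‖) ^ m := fun x =>
    (hgB x).trans (mul_le_mul_of_nonneg_right (le_abs_self _) (by positivity))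
  have hmeas : ∀ j, AEStronglyMeasurable (fun x => g x * Real.exp (-Uh (h j) ρ x)) volume :=
    fun j => (hg.mul (hpot j).cont.neg.rexp.measurable).aestronglyMeasurable
  refine ⟨fun j => ?_, ?_⟩
  · have hpb : PB (fun x : Eu κ => (1 + ‖x‖) ^ m) := by
      refine ⟨m, 1, fun x => ?_⟩
      rw [Real.norm_of_nonneg (by positivity), one_mul]
    have h3 := ((hpot j).integrable hpb (by fun_prop)).const_mul |B|
    refine h3.mono' (hmeas j) (Eventually.of_forall fun x => ?_)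
    rw [norm_mul, Real.norm_eq_abs, Real.norm_eq_abs, Real.abs_exp, ← mul_assoc]
    exact mul_le_mul_of_nonneg_right (hgB' x) (Real.exp_pos _).le
  · refine tendsto_integral_filter_of_dominated_convergence
      (fun x => |B| * C * ((1 + ‖x‖) ^ m * Real.exp (-(‖x‖ ^ 2 / 16))))
      (Eventually.of_forall hmeas) ?_ ((poly_gauss m).const_mul _) ?_
    · have hev : ∀ᶠ j in atTop, h j < 1 := hh.eventually (gt_mem_nhds one_pos)
      filter_upwards [hev] with j hj
      refine Eventually.of_forall fun x => ?_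
      rw [norm_mul, Real.norm_eq_abs, Real.norm_eq_abs, Real.abs_exp, hexp]
      calc |g x| * sh (h j) ρ x
          ≤ (|B| * (1 + ‖x‖) ^ m) * (C * Real.exp (-(‖x‖ ^ 2 / 16))) :=
            mul_le_mul (hgB' x) (hC _ (hp j) hj.le x) (hpos j x).le (by positivity)
        _ = |B| * C * ((1 + ‖x‖) ^ m * Real.exp (-(‖x‖ ^ 2 / 16))) := by ring
    · filter_upwards [hae] with x hx
      refine Tendsto.const_mul _ ?_
      simp_rw [hexp]
      exact appr hρ hB₀ hh hp tendsto_const_nhds hx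

end Pool.Agent.Q251.EM.Dlm
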